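import Pool.Agent.X305.PF.Fin

open CategoryTheory AlgebraicGeometry Polynomial

universe u v

open Pool.Agent.H914 Pool.Agent.H914.VarClass Pool.Agent.H914.VarClass.Obj
  Pool.Agent.X305.HA Pool.Agent.X305.PI Pool.Agent.X305.PE Pool.Agent.X305.PF

/-- **Numerical and `ℓ`-adic homological equivalence coincide for infinitely many `ℓ`, if each
eigenspace of a correspondence has at most two Tate classes.** Let `X` be a smooth proper variety of
dimension `2 n + g` over the algebraic closure of a finite field of characteristic `p`, `D` an ample
divisor, `W ℓ` the `ℓ`-adic cohomology, `ℓ ≠ p`, and suppose that `X` and `D` satisfy the conjecture `A`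
of Lefschetz type. Let `f` be the Frobenius endomorphism over a finite field with `q` elements over
which `X`, `D` and all classes of cycles of codimension `n` are defined. Suppose that `X` and `D` lift
to characteristic zero together with an algebraic self-correspondence `A` (of degree `0`; for instance
the diagonal) whose action on the primitive cohomology in degree `2 n` is self-adjoint: the primitive
cohomology comes from a polarized rational Hodge structure `B` and `A` acts on it by a self-adjoint
endomorphism `α` of the Hodge structure `B`. Cycles of codimension `n` are not supposed to lift, and
the Tate conjecture is not assumed. Let `E` be a number field with a real embedding `τ`, over which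
`α` is diagonalisable, and `Λ` the set of its eigenvalues. For `μ` in `Λ` let `R μ` be the
characteristic polynomial of `q ^ (-n) f^*` on the `μ`-eigenspace of `A` in the primitive cohomology
(it has coefficients in `E` and does not depend on `ℓ`, its roots have absolute value `1`, and `-1` is
not a root after passing to the square of `f`). Suppose that for each `μ` the multiplicity of the root
`1`, that is, the number of Tate classes in the eigenspace, is at most two.

Then for infinitely many primes `ℓ` numerical and `ℓ`-adic homological equivalence coincide on the
primitive cycles of codimension `n` on `X`: if `z` is a cycle of codimension `n` such that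
`D ^ (g + 1) · z` is homologically and `z` is numerically equivalent to zero, then the class of `z` in
the `ℓ`-adic cohomology is zero.

This is an analogue of Clozel's theorem for abelian varieties over finite fields. The primes `ℓ` are
those whose Frobenius elements act like the complex conjugation on a number field which contains `E`
and the square roots of minus the discriminants of the spaces of Tate classes (computed from the
Hodge structure and the polynomials `R μ`); for them the form on the Tate classes in each
eigenspace is anisotropic. -/
theorem Pool.Agent.Results.MP_0c8446_ag.InfinitelyManyPrimes.result {k : Type u} [Field k]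
    {𝒱 : VarClass k} {ops : CycleOps 𝒱} {p : ℕ} {W : PrimesNe p → WeilCohomology.{u, v} ops}
    {X : 𝒱.Obj} {D : X.Cycles} {n g : ℕ} {f : X ⟶ X} {q : ℕ} {B : Type} [AddCommGroup B]
    [Module ℚ B] {H : PolarizedHodge B} {c : ∀ ℓ, B →+ (W ℓ).H X} {A : (X.prod X).Cycles}
    {α : B →ₗ[ℚ] B} (h : IsReductionWith W X D n g f q H c A α) {E : Type} [Field E]
    [NumberField E] {τ : E →+* ℝ} {Λ : Finset E} {R : E → E[X]}
    (hM : MultiplicityTwo W X D n g f q A α τ Λ R) (N : ℕ) :
    ∃ ℓ : PrimesNe p, N < ℓ ∧ PrimitiveD (W ℓ) X D n g :=
  exists_primitiveD h hM N
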