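import Pool.Agent.X310.SrcD

/-!
# Homological and numerical equivalence on the square of a variety, from semisimple sources

Let `X` be a smooth projective variety of dimension `n` over a field of any characteristic, `W` a
Weil cohomology theory and `D` a divisor on `X` with hard Lefschetz. Suppose that for each `i ≤ n`
there are finitely many varieties `Y_t` and degrees `j_t` such that

1. `H^i(X)` is spanned by the images of the spaces `H^(j_t)(Y_t)` under algebraic correspondences;
2. for each `t` some combination of algebraic correspondences is an isomorphism from
   `H^(2 m - j_t)(Y_t)` to `H^(j_t)(Y_t)`, `m = dim Y_t`;
3. the trace form on the algebraic correspondences between the spaces `H^(j_t)(Y_t)` is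
   nondegenerate, or these spaces are semisimple under the joint action of the algebraic
   correspondences and of some operators commuting with them, for example a monodromy group or a
   Frobenius.

Then homological and numerical equivalence coincide on `X × X` and on `X`, in all codimensions, and
the conjecture B holds for `X`. No condition is made on the products of the `Y_t` with each other
beyond the third one, which concerns single degrees of the `Y_t`.

Over the complex numbers, for sources satisfying the conjecture B, the third condition is automatic
by the Hodge index theorem (Arapura, Charles, Andre); in positive characteristic positivity is
unknown, and is replaced here by semisimplicity.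
-/

open Pool.Agent.H914 Pool.Agent.X310

universe u v

namespace Pool.Agent.Results.MP_0c8446_ag.SemisimpleSourcesSquare

/-- **Homological and numerical equivalence coincide on the square of a variety whose cohomology
comes from semisimple sources.** -/
theorem result {k : Type u} [Field k] {𝒱 : VarClass k} {ops : CycleOps 𝒱}
    (W : WeilCohomology.{u, v} ops) (X : 𝒱.Obj) (D : X.Cycles) (hD : X.IsCyc 1 D)
    (hX : HardLefschetz W X D) (h : ∀ i ≤ X.dim, FromSources W X i) :
    HomEqNum W (X.prod X) ∧ HomEqNum W X ∧ LefschetzB W X D :=
  sources_D hD hX h

end Pool.Agent.Results.MP_0c8446_ag.SemisimpleSourcesSquare
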