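import Pool.Agent.X300.KT.DD
import Pool.Agent.Results.MP_af4e75_ag.TateClassesOfProducts

/-!
# Homological and numerical equivalence on `A ^ n × Z`, `A` an abelian variety and `Z` arbitrary

The setting is that of `MP_af4e75_ag.TateClassesOfProducts`. Let `k` be a field finitely generated over
its prime field, **of any characteristic**, `A` an abelian variety over `k` and `Z` any smooth projective
variety over `k`; `V = V_ℓ(A)` with the action `ρ` of the Galois group `Γ`, `H j = H^j(Z, ℚ_ℓ)` with the
action `σ j`. We assume that `A` has no factor of type III (`hIII`), that the Tate classes of codimension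
two on `A ^ 4` come from divisors (`h4`), and that `A` is separated from `Z` (`hN`, `hT`) by the
monodromy operators of `A` at places where `Z` has potentially good reduction, or by the slopes of
Frobenius elements at which `Z` is supersingular. For example `A` is simple of type I or II, satisfies
`h4` and has, at a place where `Z` has potentially good reduction, bad reduction that is not
potentially good.

The numerical triviality of a cycle on `A ^ n × Z` implies that its intersection numbers with all
products `β × y'` are zero, where `β` is an intersection of divisors on `A ^ n` and `y'` a cycle on `Z`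
(`MeetsProductsTrivially`).

**Theorem.** (1) Each algebraic class on `A ^ n × Z`, with rational coefficients, is a sum of exterior
products `g × y`, where `g` is an intersection of divisors on `A ^ n` and `y` is an algebraic class on
`Z`, with rational coefficients. (2) **Homological and numerical equivalence agree on `A ^ n × Z` for
all `n` if and only if they agree on `Z`.** The agreement holds for `Z` if `Z` is of dimension at most
two, or of dimension at most four in characteristic zero (Lieberman). For `Z` of dimension three or four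
the standard conjecture of Lefschetz type is not known, and in positive characteristic the
agreement for a given `ℓ` is known for few abelian varieties.

The data (`Cycles`) are the sets of: the classes `D n` of divisors on `A ^ n`, the functionals `P n m` on
`H^{2m}(A ^ n)` given by the intersection numbers with intersections of divisors, the algebraic classes
`CZ d` of codimension `d` on `Z`, the functionals `N d` given by the intersection numbers with the
cycles of dimension `d` on `Z`, and the Künneth components `C n m d`, in `H^{2m}(A ^ n) ⊗ H^{2d}(Z)`, of the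
algebraic classes of codimension `m + d` on `A ^ n × Z` (they are algebraic because the
multiplications of `A ^ n` separate them; the components of odd degree in `A ^ n` are zero by
`MP_af4e75_ag.TateClassesOfProducts`). The properties which are used (`IsCycles`) are known theorems:
algebraic classes are Tate classes; the Tate conjecture for divisors on `A ^ n`; intersection numbers of
divisors are rational; an element of the span of the intersections of divisors on `A ^ n` which is
orthogonal to all intersections of divisors is zero (Milne, Lefschetz classes on abelian varieties);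
`pr_*(F · β)` is algebraic on `Z` for `F` algebraic on `A ^ n × Z`; the algebraic classes
with rational coefficients on `Z` are a vector space; a cycle on `Z` is a cycle on `A ^ 0 × Z`.

The proof: by `MP_af4e75_ag.TateClassesOfProducts` an algebraic class `F` is a combination of products
`g × y` with coefficients in `ℚ_ℓ`, `y` a Tate class. The components are found by means of the
functionals of `P n m`, so they are algebraic, and the coefficients are rational as the matrices of the
intersection numbers of divisors are rational.
-/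

set_option autoImplicit false

namespace Pool.Agent.Results.MP_0c8446_ag.TimesAbelianPowers

open Module TensorProduct Pool.Agent.Y126.AV
open Pool.Agent.H204R3.GP (IsTateClass IsWedge)
open Pool.Agent.Y126.Notions (extend)
open Pool.Agent.Results.MP_af4e75_ag.TateClassesOfProducts (IsJointTateClass chi separating NoTypeIII
  NonscalarOperators IndependentTraces CodimensionTwo DivisorProperty)

noncomputable section

/-- The forms on `V ^ n` which are the elements of `H^{2m}(A ^ n) ⊗ M`. -/
abbrev Forms (k V M : Type) [Field k] [AddCommGroup V] [Module k V] [AddCommGroup M] [Module k M]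
    (n m : ℕ) : Type :=
  (Fin n → V) [⋀^Fin m × Fin 2]→ₗ[k] M

/-- The classes of cycles on `A ^ n`, `Z` and `A ^ n × Z`. -/
structure Cycles (k V : Type) (H : ℕ → Type) [Field k] [AddCommGroup V] [Module k V]
    [∀ j, AddCommGroup (H j)] [∀ j, Module k (H j)] where
  /-- the classes of divisors on `A ^ n` -/
  D : ∀ n : ℕ, Set ((Fin n → V) [⋀^Fin 2]→ₗ[k] k)
  /-- the intersection numbers with intersections of divisors on `A ^ n` -/
  P : ∀ n m : ℕ, Set (Forms k V k n m →ₗ[k] k)
  /-- the algebraic classes on `Z` -/
  CZ : ∀ d : ℕ, Set (H (2 * d))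
  /-- the intersection numbers with algebraic cycles on `Z` -/
  N : ∀ d : ℕ, Set (H (2 * d) →ₗ[k] k)
  /-- the algebraic classes on `A ^ n × Z` -/
  C : ∀ n m d : ℕ, Set (Forms k V (H (2 * d)) n m)

section defs

variable {k V : Type} {H : ℕ → Type} [Field k] [AddCommGroup V] [Module k V]
  [∀ j, AddCommGroup (H j)] [∀ j, Module k (H j)] (S : Cycles k V H)

/-- The intersection of divisors. -/
def IsIntersection (n m : ℕ) (g : Forms k V k n m) : Prop :=
  ∃ B : Fin m → (Fin n → V) [⋀^Fin 2]→ₗ[k] k, (∀ l, B l ∈ S.D n) ∧ IsWedge B g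

/-- The intersection numbers of divisors are rational. -/
def RationalNumbers : Prop :=
  ∀ n m, ∀ φ ∈ S.P n m, ∀ g, IsIntersection S n m g → ∃ q : ℚ, φ g = q

/-- The intersection pairing is perfect on the span of the intersections of divisors. -/
def PerfectPairing : Prop :=
  ∀ n m, ∀ g ∈ Submodule.span k {g | IsIntersection S n m g}, (∀ φ ∈ S.P n m, φ g = 0) → g = 0

/-- The class `pr_*(F · β)` on `Z` is algebraic. -/
def DirectImages : Prop :=
  ∀ n m d, ∀ F ∈ S.C n m d, ∀ φ ∈ S.P n m, ∀ y : H (2 * d),
    (∀ lam : H (2 * d) →ₗ[k] k, lam y = φ (lam.compAlternatingMap F)) → y ∈ S.CZ d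

/-- The algebraic classes on `Z` are a vector space over the rational numbers. -/
def RationalSpace : Prop :=
  ∀ (d r : ℕ) (q : Fin r → ℚ) (z : Fin r → H (2 * d)), (∀ i, z i ∈ S.CZ d) →
    ∑ i, (q i : k) • z i ∈ S.CZ d

/-- A cycle on `Z` is a cycle on `A ^ 0 × Z`. -/
def ZeroPower : Prop := ∀ d, ∀ y ∈ S.CZ d, ∀ F : Forms k V (H (2 * d)) 0 0, (∀ v, F v = y) →
  F ∈ S.C 0 0 d

/-- Homological and numerical equivalence agree on `Z`: an algebraic class whose intersection numbers
with all cycles are zero is zero. -/
def HomEqNum : Prop := ∀ d, ∀ y ∈ S.CZ d, (∀ ψ ∈ S.N d, ψ y = 0) → y = 0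

/-- All intersection numbers of the class `F` on `A ^ n × Z` with products `β × y'` are zero. -/
def MeetsProductsTrivially {n m d : ℕ} (F : Forms k V (H (2 * d)) n m) : Prop :=
  ∀ φ ∈ S.P n m, ∀ ψ ∈ S.N d, φ (ψ.compAlternatingMap F) = 0

/-- Homological and numerical equivalence agree on all `A ^ n × Z`. -/
def HomEqNumProducts : Prop :=
  ∀ n m d, ∀ F ∈ S.C n m d, MeetsProductsTrivially S F → F = 0

/-- The class `F` on `A ^ n × Z` is a sum of exterior products of intersections of divisors on `A ^ n`
and algebraic classes on `Z`. -/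
def IsSumOfProducts {n m d : ℕ} (F : Forms k V (H (2 * d)) n m) : Prop :=
  ∃ (r : ℕ) (g : Fin r → Forms k V k n m) (y : Fin r → H (2 * d)),
    (∀ i, IsIntersection S n m (g i)) ∧ (∀ i, y i ∈ S.CZ d) ∧ ∀ v, F v = ∑ i, g i v • y i

end defs

variable {ℓ : ℕ} [Fact ℓ.Prime] {V Γ : Type} [AddCommGroup V] [Module ℚ_[ℓ] V] [Group Γ]
  {H : ℕ → Type} [∀ j, AddCommGroup (H j)] [∀ j, Module ℚ_[ℓ] (H j)]

/-- The properties of algebraic cycles which are used. -/
structure IsCycles (ρ : Representation ℚ_[ℓ] Γ V) (χ : Γ →* ℚ_[ℓ])
    (σ : ∀ j, Representation ℚ_[ℓ] Γ (H j)) (S : Cycles ℚ_[ℓ] V H) : Prop where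
  tate : ∀ n m d, ∀ F ∈ S.C n m d, IsJointTateClass ρ χ (σ (2 * d)) (m + d) F
  divisors : DivisorProperty ρ χ S.D
  rational : RationalNumbers S
  perfect : PerfectPairing S
  direct : DirectImages S
  space : RationalSpace S
  zero : ZeroPower S

/-- **Homological and numerical equivalence on `A ^ n × Z`.** -/
theorem result (K : Type) [Field K] [Algebra ℚ_[ℓ] K] [IsAlgClosure ℚ_[ℓ] K]
    [FiniteDimensional ℚ_[ℓ] V] [∀ j, FiniteDimensional ℚ_[ℓ] (H j)]
    (ρ : Representation ℚ_[ℓ] Γ V) (χ : Γ →* ℚ_[ℓ]) (ω : V →ₗ[ℚ_[ℓ]] V →ₗ[ℚ_[ℓ]] ℚ_[ℓ])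
    (hA : IsTateModule ρ χ ω) (σ : ∀ j, Representation ℚ_[ℓ] Γ (H j))
    (hIII : NoTypeIII (extend K ρ) (chi K χ)) (h4 : CodimensionTwo ρ χ)
    (hN : NonscalarOperators (extend K ρ) (separating (extend K ρ) (chi K χ) σ))
    (hT : IndependentTraces (extend K ρ) (chi K χ) (separating (extend K ρ) (chi K χ) σ))
    (S : Cycles ℚ_[ℓ] V H) (hS : IsCycles ρ χ σ S) :
    (∀ n m d, ∀ F ∈ S.C n m d, IsSumOfProducts S F) ∧ (HomEqNumProducts S ↔ HomEqNum S) := by
  have hE := (Pool.Agent.Results.MP_af4e75_ag.TateClassesOfProducts.result K ρ χ ω hA σ hIII h4 hN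
    hT).1
  have hF : ∀ n m d, ∀ F ∈ S.C n m d, ∀ lam : H (2 * d) →ₗ[ℚ_[ℓ]] ℚ_[ℓ],
      lam.compAlternatingMap F ∈ Submodule.span ℚ_[ℓ] {g | IsIntersection S n m g} := by
    intro n m d F hFC lam
    have h1 := hE n m d F (hS.tate n m d F hFC)
    let L : Forms ℚ_[ℓ] V (H (2 * d)) n m →ₗ[ℚ_[ℓ]] Forms ℚ_[ℓ] V ℚ_[ℓ] n m :=
      { toFun := fun G => lam.compAlternatingMap G
        map_add' := fun a b => by
          ext v
          exact map_add lam (a v) (b v)
        map_smul' := fun c a => by
          ext v
          exact map_smul lam c (a v) }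
    have h2 : Submodule.span ℚ_[ℓ]
        {F : Forms ℚ_[ℓ] V (H (2 * d)) n m |
          ∃ (B : Fin m → (Fin n → V) [⋀^Fin 2]→ₗ[ℚ_[ℓ]] ℚ_[ℓ]) (y : H (2 * d)),
          (∀ l, IsTateClass ρ χ 1 (B l)) ∧
            Pool.Agent.Results.MP_af4e75_ag.TateClassesOfProducts.IsTateVector χ (σ (2 * d)) d y ∧
            Pool.Agent.Results.MP_af4e75_ag.TateClassesOfProducts.IsExteriorProduct B y F} ≤
        (Submodule.span ℚ_[ℓ] {g | IsIntersection S n m g}).comap L := by
      refine Submodule.span_le.2 ?_
      rintro G ⟨B, y, hB, -, g, hg, hG⟩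
      have h3 : L G = lam y • g := by
        ext v
        change lam (G v) = lam y * g v
        rw [hG v, map_smul, smul_eq_mul, mul_comm]
      change L G ∈ Submodule.span ℚ_[ℓ] {g | IsIntersection S n m g}
      rw [h3]
      refine Submodule.smul_mem _ _ ?_
      exact wedge_mem (C := {g | IsIntersection S n m g}) (fun B g hB hg => ⟨B, hB, hg⟩)
        (fun l => hS.divisors n (B l) (hB l)) hg
    exact h2 h1
  refine ⟨fun n m d F hFC => ?_, fun h d y hy h0 => ?_, fun h n m d F hFC h0 => ?_⟩
  · exact Pool.Agent.X300.KT.rational_dec (𝒲 := {g | IsIntersection S n m g}) (hS.perfect n m)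
      (fun φ hφ g hg => hS.rational n m φ hφ g hg) F (hF n m d F hFC)
      (fun r q z hz => hS.space d r q z hz) (fun φ hφ y hy => hS.direct n m d F hFC φ hφ y hy)
  · let F : Forms ℚ_[ℓ] V (H (2 * d)) 0 0 :=
      AlternatingMap.constOfIsEmpty ℚ_[ℓ] (Fin 0 → V) (Fin 0 × Fin 2) y
    have hFv : ∀ v, F v = y := fun v => rfl
    have h1 := h 0 0 d F (hS.zero d y hy F hFv) (fun φ _ ψ hψ => by
      have h2 : ψ.compAlternatingMap F = 0 := by
        ext v
        change ψ (F v) = 0
        rw [hFv, h0 ψ hψ]
      rw [h2, map_zero])
    rw [← hFv 0, h1]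
    rfl
  · refine Pool.Agent.X300.KT.eq_zero_of_components (𝒲 := {g | IsIntersection S n m g})
      (hS.perfect n m) F (hF n m d F hFC) fun φ hφ y hy => ?_
    refine h d y (hS.direct n m d F hFC φ hφ y hy) fun ψ hψ => ?_
    rw [hy ψ]
    exact h0 φ hφ ψ hψ

end

end Pool.Agent.Results.MP_0c8446_ag.TimesAbelianPowers
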