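import Pool.Agent.X227.MS.DConj

/-!
# Homological and numerical equivalence on products of any variety with powers of varieties of
# symplectic type

Let `W` be a Weil cohomology theory with algebraically closed coefficients on the smooth projective
varieties over an algebraic closure of a finitely generated field of any characteristic (étale
cohomology with coefficients in an algebraic closure of `ℚ_ℓ`), with the action of the Galois
group `Γ` (`GaloisData`; `G.χ` is the action on the Tate twists).

Let `X i` be any family of odd-dimensional varieties, which may be infinite, such that homological and
numerical equivalence coincide on `X i`, the transcendental cohomology `T i` (the orthogonal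
complement of all algebraic classes) is concentrated in the middle degree (`OddMiddle`), the group `Γ`
acts irreducibly on the Lie algebra of the operators on `T i` which are skew for the intersection
form, some element of `Γ` has two eigenvalues on `T i` whose quotient is not a root of unity, and these
adjoint representations are pairwise not isomorphic (`BigFamily`). Examples: curves, hypersurfaces and
complete intersections of odd dimension with large Galois image. Let `Z` be ANY variety; nothing is
supposed about its Galois representation, its algebraic classes or the standard conjectures.

(1) There is a finite set `B` of indices with `∑ dim T i ≤ dim H(Z)` such that homological and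
numerical equivalence coincide on the product of `Z` with any powers of the `X i` if and only if they
coincide on those subproducts with `i ∈ B` for which, for some degree `m` of the right parity, the
product of the numbers (exponent of `X i`) + 1 and the sum of the `dim T i`, over the `i` which occur,
are at most the Betti number `b_m(Z)` (`SmallDim`). So finitely many products decide for infinitely
many. No `i ∈ B` is separated from `Z` by slopes (`Apart`: for some Frobenius element the
cohomology of `Z` is generated by stable pieces on which the slopes differ by at most `N`, and some
slope on `T i` exceeds `(dim X i + N) / 2`; `N = 1` if `Z` is an abelian variety or a product of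
curves).

(2) If all `X i` are separated from `Z` by slopes then homological and numerical equivalence coincide
on `(Z × ∏ X i ^ (a i)) ^ (n + 1)` if and only if they coincide on `Z ^ (n + 1)`, for all exponents `a i`
and all `n` (in particular for `n = 0`).

(3) Homological and numerical equivalence coincide on all products of powers of the `X i`.

In characteristic `p` the two equivalences are known for few varieties (for products it is not
sufficient to know the standard conjecture of Lefschetz type for the factors, since the one of Hodge
type is missing), and in characteristic zero the agreement for `Z × P` follows from the standard
conjecture of Lefschetz type for `Z`, but not from the agreement for `Z` (which is known for example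
for all `Z` of dimension at most four, by Lieberman).

The idea of the proof: let `F` be a numerically trivial algebraic class on the product. Its components
in the tensor factors `T i` are Tate functions with values in `H(Z)`. The contraction of two factors
by the intersection form is given by algebraic correspondences, so by induction the contractions of a
minimal nonzero `F` vanish, that is the functions are traceless; and then the traceless parts of
the tensor powers of the `T i`, on which the group acts through a large symplectic group, occur in
`H(Z)` twisted by a power of `χ`, which gives the bounds.
-/

open CategoryTheory AlgebraicGeometry

universe u

namespace Pool.Agent.Results.MP_0c8446_ag.TimesSymplecticType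

open Pool.Agent.H914 Pool.Agent.H914.VarClass Pool.Agent.H914.VarClass.Obj Pool.Agent.Y132.AH
  Pool.Agent.X227.MM

variable {k : Type u} [Field k] {𝒱 : VarClass k} {ops : CycleOps 𝒱}

theorem result (W : WeilCohomology.{u, 0} ops) [IsAlgClosed W.K] {Γ : Type} [Group Γ]
    (G : GaloisData W Γ) {ι : Type} [DecidableEq ι] (X : ι → 𝒱.Obj) (hX : ∀ i, OddMiddle W (X i))
    (hG : BigFamily G X) (Z : 𝒱.Obj) :
    (∃ B : Finset ι, ∑ i ∈ B, trDim W (X i) ≤ totDim W Z ∧ (∀ i ∈ B, ¬Apart G (X i) Z) ∧
      ∀ L : List ι, HomEqNum W (prodList X Z L) ↔
        ∀ L' : List ι, L'.Sublist L → SmallDim W X Z B L' → HomEqNum W (prodList X Z L')) ∧
    ((∀ i, Apart G (X i) Z) → ∀ (L : List ι) (n : ℕ),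
      (HomEqNum W (powN (prodList X Z L) n) ↔ HomEqNum W (powN Z n))) ∧
    (Z.dim = 0 → ∀ (L : List ι) (n : ℕ), HomEqNum W (powN (prodList X Z L) n)) :=
  ⟨Pool.Agent.X227.MS.d_iff G Z hX hG, fun h L n => Pool.Agent.X227.MS.d_pow G Z hX hG h L n,
    fun hZ L n => Pool.Agent.X227.MS.d_products G hZ hX hG L n⟩

end Pool.Agent.Results.MP_0c8446_ag.TimesSymplecticType
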